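import Pool.Agent.MP_09de6b_co.LowMain

/-! Breaker cannot win the bichromatic empty-polygon game with any speed below 3. -/

theorem Pool.Agent.Results.MP_09de6b_co.LowerThree.result (k : ℕ) (hk : 3 ≤ k) (s : ℝ)
    (hs0 : 0 < s) (hs : s < 3) : ¬ Pool.Agent.MP_09de6b_co.BreakerWins s k :=
  Pool.Agent.MP_09de6b_co.Low.not_breakerWins (by omega) hs0 hs
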