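import Pool.Agent.MP_09de6b_co.Upper4

/-! Breaker wins the bichromatic empty-polygon game for 8-holes with any speed at least 4. -/

theorem Pool.Agent.Results.MP_09de6b_co.UpperFour.result (k : ℕ) (hk : 8 ≤ k) (s : ℝ)
    (hs : 4 ≤ s) : Pool.Agent.MP_09de6b_co.BreakerWins s k :=
  Pool.Agent.MP_09de6b_co.breaker_wins s hs k hk
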